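import Mathlib

/-!
# The number of primes over a prime number in the cyclotomic tower
-/

set_option autoImplicit false

namespace Pool.Agent.V7H44.MF

open NumberField Ideal

/-- The order of a number modulo the powers of an odd prime. -/
theorem pow_le_order {p : ℕ} (hp : p.Prime) (hp2 : p ≠ 2) {ℓ : ℕ} (hℓ : ℓ.Prime) (hne : ℓ ≠ p)
    {n f : ℕ} (hf : f ≠ 0) (h : p ^ n ∣ ℓ ^ f - 1) : p ^ n ≤ (ℓ ^ (p - 1) - 1) * f := by
  have hpf : Fact p.Prime := ⟨hp⟩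
  have hcop : ℓ.Coprime p := (Nat.coprime_primes hℓ hp).2 hne
  set x := ℓ ^ (p - 1) with hx
  have hp1 : p - 1 ≠ 0 := by
    have := hp.two_le
    omega
  have hx1 : 1 < x := Nat.one_lt_pow hp1 hℓ.one_lt
  have hxp : p ∣ x - 1 := by
    have h1 := Nat.ModEq.pow_totient hcop
    rw [Nat.totient_prime hp] at h1
    exact (Nat.modEq_iff_dvd' hx1.le).1 h1.symm
  have hpx : ¬ p ∣ x := by
    intro h1
    have h2 := hp.dvd_of_dvd_pow h1
    exact hne ((Nat.prime_dvd_prime_iff_eq hp hℓ).1 h2).symm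
  have hdvd : p ^ n ∣ x ^ f - 1 := by
    refine h.trans ?_
    rw [hx, ← pow_mul, mul_comm, pow_mul]
    have := Nat.sub_dvd_pow_sub_pow (ℓ ^ f) 1 (p - 1)
    rwa [one_pow] at this
  have h1 := padicValNat.pow_sub_pow (p := p) (hp.odd_of_ne_two hp2) hx1 hxp hpx hf
  rw [one_pow] at h1
  have hxf : x ^ f - 1 ≠ 0 := by
    have := Nat.one_lt_pow hf hx1
    omega
  have h2 : n ≤ padicValNat p (x ^ f - 1) := (padicValNat_dvd_iff_le hxf).1 hdvd
  rw [h1] at h2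
  calc p ^ n ≤ p ^ (padicValNat p (x - 1) + padicValNat p f) :=
        Nat.pow_le_pow_right hp.pos h2
    _ = p ^ padicValNat p (x - 1) * p ^ padicValNat p f := pow_add _ _ _
    _ ≤ (x - 1) * f := by
        apply Nat.mul_le_mul
        · exact Nat.le_of_dvd (by omega) pow_padicValNat_dvd
        · exact Nat.le_of_dvd (Nat.pos_of_ne_zero hf) pow_padicValNat_dvd

/-- The number of primes over `ℓ` in the field of the roots of unity of order `p^(m+1)`. -/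
theorem ncard_le {p : ℕ} (hp : p.Prime) (hp2 : p ≠ 2) {ℓ : ℕ} (hℓ : ℓ.Prime) (m : ℕ)
    (K : Type) [Field K] [NumberField K] [IsCyclotomicExtension {p ^ (m + 1)} ℚ K] :
    ((span {(ℓ : ℤ)}).primesOver (𝓞 K)).ncard ≤ ℓ ^ (p - 1) := by
  have hpf : Fact p.Prime := ⟨hp⟩
  have hℓf : Fact ℓ.Prime := ⟨hℓ⟩
  have hpos : 0 < ℓ ^ (p - 1) := pow_pos hℓ.pos _
  by_cases hne : ℓ = p
  · subst hne
    rw [IsCyclotomicExtension.Rat.ncard_primesOver_of_prime_pow ℓ m K]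
    exact hpos
  have hG : IsGalois ℚ K := IsCyclotomicExtension.isGalois {p ^ (m + 1)} ℚ K
  have hnz : NeZero (p ^ (m + 1)) := ⟨(pow_pos hp.pos _).ne'⟩
  have hnd : ¬ ℓ ∣ p ^ (m + 1) := by
    intro h
    exact hne ((Nat.prime_dvd_prime_iff_eq hℓ hp).1 (hℓ.dvd_of_dvd_pow h))
  have h1 := ncard_primesOver_mul_ramificationIdxIn_mul_inertiaDegIn (span {(ℓ : ℤ)}) (𝓞 K) Gal(K/ℚ)
  rw [IsCyclotomicExtension.Rat.ramificationIdxIn_eq_of_not_dvd (m := p ^ (m + 1)) ℓ K hnd,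
    IsCyclotomicExtension.Rat.inertiaDegIn_eq_of_not_dvd (m := p ^ (m + 1)) ℓ K hnd, one_mul,
    IsGalois.card_aut_eq_finrank,
    IsCyclotomicExtension.finrank K (Polynomial.cyclotomic.irreducible_rat (NeZero.pos (p ^ (m + 1))))]
    at h1
  set f := orderOf ((ℓ : ℕ) : ZMod (p ^ (m + 1))) with hf
  have htot : Nat.totient (p ^ (m + 1)) ≤ p ^ (m + 1) := Nat.totient_le _
  have htot0 : 0 < Nat.totient (p ^ (m + 1)) := Nat.totient_pos.2 (NeZero.pos _)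
  have hf0 : f ≠ 0 := by
    intro h
    rw [h, mul_zero] at h1
    omega
  have hdvd : p ^ (m + 1) ∣ ℓ ^ f - 1 := by
    have h2 : ((ℓ : ℕ) : ZMod (p ^ (m + 1))) ^ f = 1 := pow_orderOf_eq_one _
    have h3 : ((ℓ ^ f : ℕ) : ZMod (p ^ (m + 1))) = ((1 : ℕ) : ZMod (p ^ (m + 1))) := by
      push_cast
      exact h2
    have h4 := (ZMod.natCast_eq_natCast_iff _ _ _).1 h3
    exact (Nat.modEq_iff_dvd' (Nat.one_le_pow _ _ hℓ.pos)).1 h4.symm
  have h2 := pow_le_order hp hp2 hℓ hne hf0 hdvd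
  have h3 : ((span {(ℓ : ℤ)}).primesOver (𝓞 K)).ncard * f ≤ (ℓ ^ (p - 1) - 1) * f := by
    rw [h1]
    exact htot.trans h2
  have h4 := Nat.le_of_mul_le_mul_right h3 (Nat.pos_of_ne_zero hf0)
  omega

end Pool.Agent.V7H44.MF
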