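import Pool.Agent.Q60.MU.Fields

/-!
# Tight fields: definitions
-/

set_option autoImplicit false

namespace Pool.Agent.V7H44.MF

open Module IntermediateField Pool.Agent.Q60.MU

/-- The field generated by the roots of unity of order `p ^ (m + 1)`. -/
noncomputable def cyc (p m : ℕ) : IntermediateField ℚ Qb :=
  IntermediateField.adjoin ℚ {z : Qb | z ^ p ^ (m + 1) = 1}

/-- `R m` is the subfield of degree `p ^ m` of the field of the roots of unity of order
`p ^ (m + 1)`, that is, the `m`-th layer of the cyclotomic `ℤ_p`-extension of `ℚ` (for odd `p`). -/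
def IsCyclotomicTower (p : ℕ) (R : ℕ → IntermediateField ℚ Qb) : Prop :=
  ∀ m, R m ≤ cyc p m ∧ finrank ℚ (R m) = p ^ m

section generic

variable {k : Type} [Field k] {G : Type} [Group G] {S : Type} [AddCommGroup S] [Module k S]
  (τ : Representation k G S)

/-- The vector `v` is fixed by the group `H`. -/
def FixedBy (H : Subgroup G) (v : S) : Prop := ∀ g ∈ H, τ g v = v

/-- The group `H` acts trivially. -/
def TrivialOf (H : Subgroup G) : Prop := ∀ g ∈ H, ∀ x, τ g x = x

/-- There are nonzero vectors fixed by `H`, and their stabilizers are all equal to `H`. -/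
def TightOf (H : Subgroup G) : Prop :=
  (∃ v : S, v ≠ 0 ∧ FixedBy τ H v) ∧
    ∀ v : S, v ≠ 0 → FixedBy τ H v → ∀ g, τ g v = v → g ∈ H

/-- No element other than `1` fixes a nonzero vector. -/
def FreeOf : Prop := ∀ σ : G, σ ≠ 1 → ∀ v : S, τ σ v = v → v = 0

end generic

/-- `τ` is trivial on `Gal(ℚ^al/N)` for some number field `N`. -/
def FiniteImage {k : Type} [Field k] {S : Type} [AddCommGroup S] [Module k S]
    (τ : Representation k Gal(Qb/ℚ) S) : Prop :=
  ∃ N : IntermediateField ℚ Qb, FiniteDimensional ℚ N ∧ TrivialOf τ N.fixingSubgroup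

/-- The field `F` is tight: for some irreducible representation `S` of `Gal(ℚ^al/ℚ)` over `𝔽_p` with
finite image the space `S^F` of the vectors fixed by `Gal(ℚ^al/F)` is not zero, and every nonzero
vector in `S^F` generates `F` (that is, its stabilizer is exactly `Gal(ℚ^al/F)`). -/
def IsTight (p : ℕ) [Fact p.Prime] (F : IntermediateField ℚ Qb) : Prop :=
  ∃ (S : Type) (_ : AddCommGroup S) (_ : Module (ZMod p) S) (_ : Module.Finite (ZMod p) S)
    (τ : Representation (ZMod p) Gal(Qb/ℚ) S),
    IsSimple τ ∧ FiniteImage τ ∧ TightOf τ F.fixingSubgroup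

/-- The group of automorphisms of the field `F`. -/
def AutGroup (F : IntermediateField ℚ Qb) : Type := F ≃ₐ[ℚ] F

/-- The group structure is the composition. -/
noncomputable instance (F : IntermediateField ℚ Qb) : Group (AutGroup F) := AlgEquiv.aut

/-- `F / ℚ` is a Galois extension with abelian Galois group. -/
def IsAbelianField (F : IntermediateField ℚ Qb) : Prop :=
  IsGalois ℚ F ∧ ∀ σ τ : AutGroup F, σ * τ = τ * σ

/-- The group `A` has a nonzero finite-dimensional representation over `𝔽_p` in which no element
of `A` other than `1` fixes a nonzero vector (so `A` is trivial or a Frobenius complement). -/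
def ActsFreely (p : ℕ) [Fact p.Prime] (A : Type) [Group A] : Prop :=
  ∃ (V : Type) (_ : AddCommGroup V) (_ : Module (ZMod p) V) (_ : Module.Finite (ZMod p) V)
    (_ : Nontrivial V) (b : Representation (ZMod p) A V), FreeOf b

/-- `p` does not divide the order of `A`, the subgroups of `A` whose order is the product of two
primes are cyclic, and `A` has at most one element of order two. -/
def SmallGroup (p : ℕ) (A : Type) [Group A] : Prop :=
  ¬ p ∣ Nat.card A ∧
  (∀ (B : Subgroup A) (q r : ℕ), q.Prime → r.Prime → Nat.card B = q * r → IsCyclic B) ∧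
  ∀ c c' : A, c ≠ 1 → c' ≠ 1 → c * c = 1 → c' * c' = 1 → c = c'

variable (p : ℕ) [Fact p.Prime] (R : ℕ → IntermediateField ℚ Qb)

/-- `μ = 0` for all number fields. -/
def AllZero : Prop :=
  ∀ F : IntermediateField ℚ Qb, FiniteDimensional ℚ F → MuZero p R F

/-- `μ = 0` for all tight fields of degree prime to `p`. -/
def TightZero : Prop :=
  ∀ F : IntermediateField ℚ Qb, IsTight p F → ¬ p ∣ finrank ℚ F → MuZero p R F

/-- `μ = 0` for all tight subfields of `N` of degree prime to `p`. -/
def TightZeroIn (N : IntermediateField ℚ Qb) : Prop :=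
  ∀ E : IntermediateField ℚ Qb, E ≤ N → IsTight p E → ¬ p ∣ finrank ℚ E → MuZero p R E

/-- `μ = 0` for all abelian number fields. -/
def FerreroWashington : Prop :=
  ∀ F : IntermediateField ℚ Qb, FiniteDimensional ℚ F → IsAbelianField F → MuZero p R F

/-- `μ = 0` for all tight fields of degree prime to `p` which are not abelian. -/
def TightZeroNonabelian : Prop :=
  ∀ F : IntermediateField ℚ Qb, IsTight p F → ¬ p ∣ finrank ℚ F → ¬ IsAbelianField F →
    MuZero p R F

/-- If `F` is contained in a Galois extension `M / ℚ` of degree `p ^ k` over a Galois extension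
`L / ℚ`, then `F` is contained in `L`. -/
def NoPExtension (F : IntermediateField ℚ Qb) : Prop :=
  ∀ L M : IntermediateField ℚ Qb, FiniteDimensional ℚ M → IsGalois ℚ L → IsGalois ℚ M →
    L ≤ M → F ≤ M → ∀ k : ℕ, finrank ℚ M = p ^ k * finrank ℚ L → F ≤ L

end Pool.Agent.V7H44.MF
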