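import Pool.Agent.V7H44.MF.Count
import Pool.Agent.H124R3.Local
import Pool.Agent.V7H44.MF.Defs

/-!
# Every prime number has boundedly many primes above it in the cyclotomic tower
-/

set_option autoImplicit false

namespace Pool.Agent.V7H44.MF

open NumberField Ideal Pool.Agent.Q60.MU Pool.Agent.H639R3
open scoped Pointwise

theorem exists_zeta {p : ℕ} (hp : p.Prime) (m : ℕ) :
    ∃ ζ : Qb, IsPrimitiveRoot ζ (p ^ (m + 1)) ∧ cyc p m = IntermediateField.adjoin ℚ {ζ} := by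
  have hnz : NeZero (p ^ (m + 1)) := ⟨(pow_pos hp.pos _).ne'⟩
  have hac : IsAlgClosed Qb := AlgebraicClosure.isAlgClosed ℚ
  obtain ⟨ζ, hζ⟩ := HasEnoughRootsOfUnity.exists_primitiveRoot Qb (p ^ (m + 1))
  refine ⟨ζ, hζ, le_antisymm ?_ ?_⟩
  · unfold cyc
    rw [IntermediateField.adjoin_le_iff]
    intro z hz
    obtain ⟨i, -, hi⟩ := hζ.eq_pow_of_pow_eq_one hz
    rw [← hi]
    exact pow_mem (IntermediateField.mem_adjoin_simple_self ℚ ζ) i
  · rw [IntermediateField.adjoin_simple_le_iff]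
    exact IntermediateField.subset_adjoin _ _ hζ.pow_eq_one

theorem cyc_finite {p : ℕ} (hp : p.Prime) (m : ℕ) : FiniteDimensional ℚ (cyc p m) := by
  obtain ⟨ζ, -, h⟩ := exists_zeta hp m
  rw [h]
  exact IntermediateField.adjoin.finiteDimensional (Algebra.IsIntegral.isIntegral ζ)

theorem cyc_isCyclotomic {p : ℕ} (hp : p.Prime) (m : ℕ) :
    IsCyclotomicExtension {p ^ (m + 1)} ℚ (cyc p m) := by
  have hnz : NeZero (p ^ (m + 1)) := ⟨(pow_pos hp.pos _).ne'⟩
  obtain ⟨ζ, hζ, h⟩ := exists_zeta hp m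
  rw [h]
  exact hζ.intermediateField_adjoin_isCyclotomicExtension ℚ

theorem not_top_of_nonunit {A : ValuationSubring Qb} {ℓ : ℕ} (h : (ℓ : Qb) ∈ A.nonunits)
    (hℓ : ℓ ≠ 0) (E : IntermediateField ℚ Qb) : A.comap (algebraMap E Qb) ≠ ⊤ := by
  intro htop
  rw [ValuationSubring.mem_nonunits_iff_or] at h
  rcases h with h | h
  · exact hℓ (by exact_mod_cast h)
  · apply h
    have h1 : ((ℓ : E))⁻¹ ∈ A.comap (algebraMap E Qb) := by rw [htop]; trivial
    rw [ValuationSubring.mem_comap, map_inv₀, map_natCast] at h1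
    exact h1

theorem int_mem_comap (A : ValuationSubring Qb) (E : IntermediateField ℚ Qb) (a : 𝓞 E) :
    algebraMap (𝓞 E) E a ∈ A.comap (algebraMap E Qb) := by
  rw [ValuationSubring.mem_comap]
  apply Pool.Agent.Q60.MU.integral_mem
  exact (RingOfIntegers.isIntegral_coe a).algebraMap

/-- the prime of the number field `E` below `A` -/
noncomputable def below (A : ValuationSubring Qb) (E : IntermediateField ℚ Qb) : Ideal (𝓞 E) :=
  cent (A.comap (algebraMap E Qb)) (int_mem_comap A E)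

theorem below_mem {A : ValuationSubring Qb} {ℓ : ℕ} (hℓ : ℓ.Prime) (h : (ℓ : Qb) ∈ A.nonunits)
    (E : IntermediateField ℚ Qb) : below A E ∈ (span {(ℓ : ℤ)}).primesOver (𝓞 E) := by
  have hpr : (below A E).IsPrime := cent_isPrime _ _
  refine ⟨hpr, ⟨?_⟩⟩
  have hmax : (span {(ℓ : ℤ)}).IsMaximal := by
    have := Int.prime_iff_natAbs_prime.2 (by simpa using hℓ : (ℓ : ℤ).natAbs.Prime)
    exact PrincipalIdealRing.isMaximal_of_irreducible this.irreducible
  refine hmax.eq_of_le ?_ ?_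
  · exact (hpr.comap (algebraMap ℤ (𝓞 E))).ne_top
  · rw [span_le, Set.singleton_subset_iff]
    show algebraMap ℤ (𝓞 E) (ℓ : ℤ) ∈ below A E
    unfold below
    rw [mem_cent, comap_val_lt_one, ← ValuationSubring.mem_nonunits_iff]
    have h1 : algebraMap E Qb (algebraMap (𝓞 E) E (algebraMap ℤ (𝓞 E) (ℓ : ℤ))) = (ℓ : Qb) := by
      simp
    rw [h1]
    exact h

/-- Valuation rings over the same prime of `E` are conjugate over `E`. -/
theorem conj_of_below {A B : ValuationSubring Qb} {ℓ : ℕ} (hℓ : ℓ.Prime)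
    (hA : (ℓ : Qb) ∈ A.nonunits) (hB : (ℓ : Qb) ∈ B.nonunits) (E : IntermediateField ℚ Qb)
    [FiniteDimensional ℚ E] (h : below A E = below B E) :
    ∃ σ ∈ E.fixingSubgroup, A = σ • B := by
  have nE : NumberField E := ⟨⟩
  have hgal : IsGalois E Qb := IsGalois.tower_top_of_isGalois ℚ E Qb
  have hA1 := not_top_of_nonunit hA hℓ.ne_zero E
  have hB1 := not_top_of_nonunit hB hℓ.ne_zero E
  have heq : A.comap (algebraMap E Qb) = B.comap (algebraMap E Qb) :=
    eq_of_cent_eq (A := 𝓞 E) _ _ (int_mem_comap A E) (int_mem_comap B E) hA1 hB1 h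
  obtain ⟨σ, hσ⟩ := exists_aut (F := E) (L := Qb) (A := 𝓞 E) A B (int_mem_comap A E) hA1 heq
  refine ⟨σ.restrictScalars ℚ, ?_, ?_⟩
  · rw [IntermediateField.mem_fixingSubgroup_iff]
    intro x hx
    exact σ.commutes ⟨x, hx⟩
  · ext x
    rw [ValuationSubring.mem_pointwise_smul_iff_inv_smul_mem]
    have h1 := hσ (σ⁻¹ x)
    have h2 : σ (σ⁻¹ x) = x := σ.apply_symm_apply x
    rw [h2] at h1
    exact h1.symm

/-- **Every prime number has boundedly many primes above it in the cyclotomic tower.** -/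
theorem finDec {p : ℕ} (hp : p.Prime) (hp2 : p ≠ 2) {R : ℕ → IntermediateField ℚ Qb}
    (hR : ∀ m, R m ≤ cyc p m) : FinDec R := by
  classical
  intro ℓ hℓ
  refine ⟨ℓ ^ (p - 1), fun m => ?_⟩
  have hfd := cyc_finite hp m
  have hcy := cyc_isCyclotomic hp m
  have nE : NumberField (cyc p m) := ⟨⟩
  have hfin : ((span {(ℓ : ℤ)}).primesOver (𝓞 (cyc p m))).Finite := by
    have hℓf : Fact ℓ.Prime := ⟨hℓ⟩
    have : (span {(ℓ : ℤ)}).IsPrime := by
      have := Int.prime_iff_natAbs_prime.2 (by simpa using hℓ : (ℓ : ℤ).natAbs.Prime)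
      exact (span_singleton_prime this.ne_zero).2 this
    exact Algebra.QuasiFinite.finite_primesOver _
  let S : Set (Ideal (𝓞 (cyc p m))) := {P | ∃ A : ValuationSubring Qb, (ℓ : Qb) ∈ A.nonunits ∧
    below A (cyc p m) = P}
  have hS : S ⊆ (span {(ℓ : ℤ)}).primesOver (𝓞 (cyc p m)) := by
    rintro P ⟨A, hA, rfl⟩
    exact below_mem hℓ hA _
  have hSf : S.Finite := hfin.subset hS
  choose! g hg using (fun P (hP : P ∈ S) => hP : ∀ P ∈ S, ∃ A : ValuationSubring Qb,
    (ℓ : Qb) ∈ A.nonunits ∧ below A (cyc p m) = P)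
  refine ⟨hSf.toFinset.image g, ?_, ?_⟩
  · refine Finset.card_image_le.trans ?_
    rw [← Set.ncard_eq_toFinset_card S hSf]
    exact (Set.ncard_le_ncard hS hfin).trans (ncard_le hp hp2 hℓ m (cyc p m))
  · intro A hA
    have hPS : below A (cyc p m) ∈ S := ⟨A, hA, rfl⟩
    obtain ⟨h1, h2⟩ := hg _ hPS
    refine ⟨g (below A (cyc p m)), Finset.mem_image.2 ⟨_, hSf.mem_toFinset.2 hPS, rfl⟩, ?_⟩
    obtain ⟨σ, hσ, h3⟩ := conj_of_below hℓ hA h1 (cyc p m) h2.symm
    exact ⟨σ, IntermediateField.fixingSubgroup_le (hR m) hσ, h3⟩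

end Pool.Agent.V7H44.MF
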