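import Pool.Agent.V7H44.MF.Defs
import Pool.Agent.X27.Cln.Cx

/-!
# Groups acting freely on the nonzero vectors
-/

set_option autoImplicit false

namespace Pool.Agent.V7H44.MF

open Module IntermediateField Pool.Agent.Q60.MU Pool.Agent.X27.Cln

section free

variable {p : ℕ} [Fact p.Prime] {A : Type} [Group A] [Finite A] {V : Type} [AddCommGroup V]
  [Module (ZMod p) V] [Module.Finite (ZMod p) V] [Nontrivial V] (b : Representation (ZMod p) A V)
  (hfree : ∀ σ : A, σ ≠ 1 → ∀ v : V, b σ v = v → v = 0)
include hfree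

omit [Finite A] [Module.Finite (ZMod p) V] [Nontrivial V] in
theorem inv_of_free {c : A} (hc : c ≠ 1) (hcc : c * c = 1) (v : V) : b c v = -v := by
  have h1 : b c (v + b c v) = v + b c v := by
    rw [map_add, ← Module.End.mul_apply, ← map_mul, hcc, map_one, Module.End.one_apply, add_comm]
  have h2 := hfree c hc _ h1
  exact eq_neg_of_add_eq_zero_right h2

omit [Finite A] [Module.Finite (ZMod p) V] in
theorem unique_inv_of_free {c c' : A} (hc : c ≠ 1) (hc' : c' ≠ 1) (hcc : c * c = 1)
    (hcc' : c' * c' = 1) : c = c' := by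
  obtain ⟨v, hv⟩ := exists_ne (0 : V)
  have h1 : b (c * c') v = v := by
    rw [map_mul, Module.End.mul_apply, inv_of_free b hfree hc' hcc', map_neg,
      inv_of_free b hfree hc hcc, neg_neg]
  have h2 : c * c' = 1 := by
    by_contra h
    exact hv (hfree _ h v h1)
  have h3 : c = c'⁻¹ := eq_inv_of_mul_eq_one_left h2
  rw [h3]
  exact (eq_inv_of_mul_eq_one_left hcc').symm

theorem not_dvd_of_free : ¬ p ∣ Nat.card A := by
  have hp : p.Prime := Fact.out
  intro h
  obtain ⟨σ, hσ⟩ := exists_prime_orderOf_dvd_card' p h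
  have hσ1 : σ ≠ 1 := by
    intro h1
    rw [h1, orderOf_one] at hσ
    exact hp.one_lt.ne hσ
  -- the subgroup generated by `σ` is a `p`-group, and fixes a nonzero vector
  let P := Subgroup.zpowers σ
  have hP : IsPGroup p P := by
    apply IsPGroup.of_card (n := 1)
    rw [Nat.card_zpowers, hσ, pow_one]
  let ρ : Representation (ZMod p) P V := b.comp P.subtype
  obtain ⟨v, hv, hfix⟩ := exists_fixed hP ρ
  exact hv (hfree σ hσ1 v (hfix ⟨σ, Subgroup.mem_zpowers σ⟩))

omit [Module.Finite (ZMod p) V] [Nontrivial V] [Finite A] in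
theorem sum_zero_of_free [Fintype A] (D : Subgroup A) [DecidablePred (· ∈ D)] (hD : D ≠ ⊥) (v : V) :
    ∑ g ∈ Finset.univ.filter (fun g => g ∈ D), b g v = 0 := by
  obtain ⟨d, hd, hd1⟩ : ∃ d : A, d ∈ D ∧ d ≠ 1 := by
    by_contra hno
    push Not at hno
    exact hD ((Subgroup.eq_bot_iff_forall D).2 hno)
  apply hfree d hd1
  rw [map_sum]
  refine Finset.sum_bij (fun g _ => d * g) ?_ ?_ ?_ ?_
  · intro g hg
    simp only [Finset.mem_filter, Finset.mem_univ, true_and] at hg ⊢
    exact D.mul_mem hd hg
  · intro a _ c _ h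
    exact mul_left_cancel h
  · intro g hg
    simp only [Finset.mem_filter, Finset.mem_univ, true_and] at hg
    refine ⟨d⁻¹ * g, ?_, by group⟩
    simp only [Finset.mem_filter, Finset.mem_univ, true_and]
    exact D.mul_mem (D.inv_mem hd) hg
  · intro g _
    rw [map_mul, Module.End.mul_apply]

theorem cyclic_of_free (B : Subgroup A) {q r : ℕ} (hq : q.Prime) (hr : r.Prime)
    (hc : Nat.card B = q * r) : IsCyclic B := by
  classical
  by_contra hcyc
  have hp : p.Prime := Fact.out
  have : Fintype A := Fintype.ofFinite _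
  have : Fintype (Subgroup B) := Fintype.ofFinite _
  have hpt := isPart_map (prime_part (X := B) hq hr hc hcyc)
  have hcard := prime_part_card (X := B) hq hr hc hcyc
  obtain ⟨v, hv⟩ := exists_ne (0 : V)
  have h1 := part_relation hpt (fun g => Multiplicative.ofAdd (b g v))
  have hB0 : B ≠ ⊥ := by
    intro h0
    rw [h0, Subgroup.card_bot] at hc
    have := hq.two_le
    have := hr.two_le
    nlinarith
  have htriv : ∀ D : Subgroup A, D ≠ ⊥ →
      ∏ g ∈ Finset.univ.filter (fun g => g ∈ D), Multiplicative.ofAdd (b g v) = 1 := by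
    intro D hD
    rw [← ofAdd_sum, sum_zero_of_free b hfree D hD v, ofAdd_zero]
  rw [htriv B hB0, one_mul, map_one, Module.End.one_apply, hcard, Finset.prod_eq_one, one_mul] at h1
  · have h2 : (Multiplicative.ofAdd v) ^ (max q r) = 1 := by
      rw [pow_succ] at h1
      exact (mul_eq_right.1 h1.symm)
    rw [← ofAdd_nsmul, ofAdd_eq_one] at h2
    have hndvd : ¬ p ∣ max q r := by
      intro h
      apply not_dvd_of_free b hfree
      have h3 : max q r ∣ Nat.card B := by
        rw [hc]
        rcases le_total q r with h5 | h5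
        · rw [max_eq_right h5]; exact dvd_mul_left _ _
        · rw [max_eq_left h5]; exact dvd_mul_right _ _
      exact h.trans (h3.trans (Subgroup.card_subgroup_dvd_card B))
    have h3 : ((max q r : ℕ) : ZMod p) • v = 0 := by
      rw [Nat.cast_smul_eq_nsmul]
      exact h2
    have h4 : ((max q r : ℕ) : ZMod p) ≠ 0 := by
      rw [Ne, ZMod.natCast_eq_zero_iff]
      exact hndvd
    exact hv ((smul_eq_zero.1 h3).resolve_left h4)
  · rintro ⟨D, hD⟩ _
    simp only [primeSubs, Finset.mem_filter, Finset.mem_univ, true_and] at hD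
    refine htriv _ ?_
    intro h0
    have h5 : D = ⊥ := (Subgroup.map_eq_bot_iff_of_injective D B.subtype_injective).1 h0
    rw [h5, Subgroup.card_bot] at hD
    exact Nat.not_prime_one hD

end free

theorem small_of_free {p : ℕ} [Fact p.Prime] {A : Type} [Group A] [Finite A]
    (h : ActsFreely p A) : SmallGroup p A := by
  obtain ⟨V, i1, i2, i3, i4, b, hfree⟩ := h
  exact ⟨not_dvd_of_free b hfree, fun B q r hq hr hc => cyclic_of_free b hfree B hq hr hc,
    fun c c' hc hc' hcc hcc' => unique_inv_of_free b hfree hc hc' hcc hcc'⟩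

end Pool.Agent.V7H44.MF
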