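import Pool.Agent.V7H44.MF.Dec
import Pool.Agent.V7H44.MF.Free

/-!
# Tight fields
-/

set_option autoImplicit false

namespace Pool.Agent.V7H44.MF

open Subgroup Module IntermediateField Pool.Agent.Q60.MU
open scoped Pointwise

theorem IsTight.elim {p : ℕ} [Fact p.Prime] {F : IntermediateField ℚ Qb} (h : IsTight p F) :
    ∃ (S : Type) (_ : AddCommGroup S) (_ : Module (ZMod p) S) (_ : Module.Finite (ZMod p) S)
    (τ : Representation (ZMod p) Gal(Qb/ℚ) S), IsSimple τ ∧
    (∃ N : IntermediateField ℚ Qb, FiniteDimensional ℚ N ∧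
      ∀ g ∈ N.fixingSubgroup, ∀ x, τ g x = x) ∧
    (∃ v : S, v ≠ 0 ∧ ∀ g ∈ F.fixingSubgroup, τ g v = v) ∧
    ∀ v : S, v ≠ 0 → (∀ g ∈ F.fixingSubgroup, τ g v = v) → F = fixedField (stab τ v) := by
  obtain ⟨S, i1, i2, i3, τ, h1, h2, h3, h4⟩ := h
  refine ⟨S, i1, i2, i3, τ, h1, h2, h3, fun v hv hfix => ?_⟩
  have h5 : stab τ v = F.fixingSubgroup := le_antisymm (fun g hg => h4 v hv hfix g hg) hfix
  rw [h5, InfiniteGalois.fixedField_fixingSubgroup]

/-- A vector fixed by a group of index prime to `p`, with a maximal stabilizer. -/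
theorem exists_tight_vec {p : ℕ} [Fact p.Prime] {𝔾 : Type} [Group 𝔾] {K : Subgroup 𝔾}
    (hK : K.Normal) (hKf : K.index ≠ 0) {V : Type} [AddCommGroup V] [Module (ZMod p) V]
    [Module.Finite (ZMod p) V] [Nontrivial V] (τ : Representation (ZMod p) 𝔾 V)
    (hτ : ∀ g ∈ K, ∀ x, τ g x = x) :
    ∃ v : V, v ≠ 0 ∧ ¬ p ∣ (stab τ v).index ∧
      ∀ w : V, w ≠ 0 → stab τ v ≤ stab τ w → stab τ w = stab τ v := by
  classical
  obtain ⟨v₀, hv₀, P, hP, hPp⟩ := exists_vec_P hK hKf τ hτ
  have hex : ∃ n, ∃ v : V, v ≠ 0 ∧ P ≤ stab τ v ∧ (stab τ v).index = n := ⟨_, v₀, hv₀, hP, rfl⟩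
  obtain ⟨v, hv, hPv, hn⟩ := Nat.find_spec hex
  have hmin := fun m hm => Nat.find_min hex (m := m) hm
  refine ⟨v, hv, fun h => hPp (h.trans (index_dvd_of_le hPv)), fun w hw hle => ?_⟩
  have hPw : P ≤ stab τ w := hPv.trans hle
  have hidx : ¬ (stab τ w).index < Nat.find hex := fun hlt => hmin _ hlt ⟨w, hw, hPw, rfl⟩
  rw [← hn] at hidx
  have hKle : ∀ x, K ≤ stab τ x := fun x g hg => hτ g hg x
  have hfv : (stab τ v).index ≠ 0 := fun h0 => hKf (Nat.eq_zero_of_zero_dvd (by
    rw [← h0]; exact index_dvd_of_le (hKle v)))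
  have h1 := relIndex_mul_index hle
  have h2 : (stab τ v).relIndex (stab τ w) = 1 := by
    have h3 : (stab τ v).relIndex (stab τ w) ≠ 0 := by
      intro h0
      rw [h0, zero_mul] at h1
      exact hfv h1.symm
    by_contra hne
    have h4 : 2 ≤ (stab τ v).relIndex (stab τ w) := by omega
    have h5 : (stab τ w).index ≠ 0 := by
      intro h0
      rw [h0, mul_zero] at h1
      exact hfv h1.symm
    have h6 : 2 * (stab τ w).index ≤ (stab τ v).index := by
      rw [← h1]
      exact Nat.mul_le_mul_right _ h4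
    omega
  exact le_antisymm (relIndex_eq_one.1 h2) hle

theorem fixed_le {p : ℕ} [Fact p.Prime] {S : Type} [AddCommGroup S] [Module (ZMod p) S]
    (τ : Representation (ZMod p) Gal(Qb/ℚ) S) (N : IntermediateField ℚ Qb)
    (hτ : ∀ g ∈ N.fixingSubgroup, ∀ x, τ g x = x) (v : S) : fixedField (stab τ v) ≤ N := by
  have h1 : N.fixingSubgroup ≤ stab τ v := fun g hg => hτ g hg v
  rw [← InfiniteGalois.fixedField_fixingSubgroup N]
  exact fixedField_antitone h1

theorem tower_finite {p : ℕ} [Fact p.Prime] {R : ℕ → IntermediateField ℚ Qb}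
    (hR : IsCyclotomicTower p R) (m : ℕ) : FiniteDimensional ℚ (R m) := by
  have hp : p.Prime := Fact.out
  have := cyc_finite hp m
  exact Submodule.finiteDimensional_of_le (S₁ := Subalgebra.toSubmodule (R m).toSubalgebra)
    (S₂ := Subalgebra.toSubmodule (cyc p m).toSubalgebra) (hR m).1

theorem tower_galois {p : ℕ} [Fact p.Prime] {R : ℕ → IntermediateField ℚ Qb}
    (hR : IsCyclotomicTower p R) (m : ℕ) : IsGalois ℚ (R m) := by
  have hp : p.Prime := Fact.out
  have h0 := cyc_isCyclotomic hp m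
  have h1 := IsCyclotomicExtension.isAbelianGalois {p ^ (m + 1)} ℚ (cyc p m)
  have h2 := IsAbelianGalois.of_algHom (K := ℚ) (L := R m) (M := cyc p m) (inclusion (hR m).1)
  exact h2.toIsGalois

/-- **Tight subfields detect the vanishing of `μ`.** -/
theorem tight_detect {p : ℕ} [Fact p.Prime] (hp2 : p ≠ 2) {R : ℕ → IntermediateField ℚ Qb}
    (hR : IsCyclotomicTower p R) (N : IntermediateField ℚ Qb)
    (hN : FiniteDimensional ℚ N) (hNn : IsGalois ℚ N)
    (hX : ∀ E, IsTight p E → ¬ p ∣ finrank ℚ E → E ≤ N → MuZero p R E)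
    (F : IntermediateField ℚ Qb) (hF : F ≤ N) : MuZero p R F := by
  have hp : p.Prime := Fact.out
  have hRf := tower_finite hR
  refine field_detect p R hRf (tower_galois hR) (finDec hp hp2 fun m => (hR m).1) N hN hNn
    {E | IsTight p E ∧ ¬ p ∣ finrank ℚ E ∧ E ≤ N} (fun E hE => hE.2.2) ?_
    (fun E hE => hX E hE.1 hE.2.1 hE.2.2) F hF
  · intro S _ _ _ τ hτ hs
    have hnt : Nontrivial S := hs.1
    have hKn : N.fixingSubgroup.Normal := (InfiniteGalois.normal_iff_isGalois N).2 hNn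
    obtain ⟨v, hv, hpv, hmax⟩ := exists_tight_vec hKn (index_ne_zero' N) τ hτ
    have hopen : ∀ w, IsOpen (stab τ w : Set Gal(Qb/ℚ)) := fun w =>
      Subgroup.isOpen_mono (fun g hg => hτ g hg w) N.fixingSubgroup_isOpen
    have hsf : ∀ w, (fixedField (stab τ w)).fixingSubgroup = stab τ w := fun w => fix_fixed (hopen w)
    refine ⟨fixedField (stab τ v), ⟨⟨S, inferInstance, inferInstance, inferInstance, τ, hs,
      ⟨N, hN, hτ⟩, ⟨v, hv, ?_⟩, ?_⟩, ?_, fixed_le τ N hτ v⟩, v, hv, ?_⟩
    · rw [hsf]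
      exact fun g hg => hg
    · intro w hw hfix g hg
      rw [hsf] at hfix ⊢
      rw [← hmax w hw hfix]
      exact hg
    · rw [finrank_eq_fixingSubgroup_index, hsf]
      exact hpv
    · rw [hsf]
      exact fun g hg => hg

/-- `μ = 0` goes down to subfields. -/
theorem mu_down {p : ℕ} [Fact p.Prime] {R : ℕ → IntermediateField ℚ Qb}
    (hR : IsCyclotomicTower p R) (N : IntermediateField ℚ Qb)
    (hN : FiniteDimensional ℚ N) (hNn : IsGalois ℚ N) (h : MuZero p R N)
    (F : IntermediateField ℚ Qb) (hF : F ≤ N) : MuZero p R F := by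
  have hp : p.Prime := Fact.out
  have hRf := tower_finite hR
  have hFd : FiniteDimensional ℚ F := Submodule.finiteDimensional_of_le
    (S₁ := Subalgebra.toSubmodule F.toSubalgebra)
    (S₂ := Subalgebra.toSubmodule N.toSubalgebra) hF
  rw [← mu_iff hRf] at h ⊢
  exact Mu0.of_le (fun m => by
    have := hRf m
    exact (R m).fixingSubgroup_isOpen) ((InfiniteGalois.normal_iff_isGalois N).2 hNn)
    (fixingSubgroup_le hF) N.fixingSubgroup_isOpen (index_ne_zero' N) h

/-- The Galois closure. -/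
theorem exists_closure (F : IntermediateField ℚ Qb) (hF : FiniteDimensional ℚ F) :
    ∃ N : IntermediateField ℚ Qb, FiniteDimensional ℚ N ∧ IsGalois ℚ N ∧ F ≤ N := by
  have hUf : F.fixingSubgroup.FiniteIndex := ⟨index_ne_zero' F⟩
  set K := F.fixingSubgroup.normalCore with hKdef
  have hKn : K.Normal := normalCore_normal _
  have hKo : IsOpen (K : Set Gal(Qb/ℚ)) :=
    isOpen_normalCore F.fixingSubgroup_isOpen (index_ne_zero' F)
  have hKf : K.index ≠ 0 := by
    have : K.FiniteIndex := F.fixingSubgroup.finiteIndex_normalCore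
    exact FiniteIndex.index_ne_zero
  have hfix := fix_fixed hKo
  exact ⟨fixedField K, finite_fixed hKo hKf,
    (InfiniteGalois.normal_iff_isGalois (fixedField K)).1 (by rw [hfix]; exact hKn),
    (le_iff_le _ _).2 (normalCore_le _)⟩

theorem tight_finite {p : ℕ} [Fact p.Prime] {E : IntermediateField ℚ Qb} (h : IsTight p E) :
    FiniteDimensional ℚ E := by
  obtain ⟨S, _, _, _, τ, -, ⟨N, hN, hτ⟩, ⟨v, hv, hfix⟩, hall⟩ := h.elim
  rw [hall v hv hfix]
  exact Submodule.finiteDimensional_of_le (S₁ := Subalgebra.toSubmodule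
    (fixedField (stab τ v)).toSubalgebra) (S₂ := Subalgebra.toSubmodule N.toSubalgebra)
    (fixed_le τ N hτ v)

/-- **The group of automorphisms of a tight field acts freely.** -/
theorem tight_free' {p : ℕ} [Fact p.Prime] {F : IntermediateField ℚ Qb} (h : IsTight p F) :
    ActsFreely p (F ≃ₐ[ℚ] F) := by
  obtain ⟨S, _, _, hSf, τ, -, -, ⟨v₀, hv₀, hfix₀⟩, hall⟩ := h.elim
  let V : Submodule (ZMod p) S :=
    { carrier := {v | ∀ g ∈ F.fixingSubgroup, τ g v = v}
      add_mem' := fun {a b} ha hb g hg => by rw [map_add, ha g hg, hb g hg]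
      zero_mem' := fun g _ => map_zero _
      smul_mem' := fun c a ha g hg => by rw [map_smul, ha g hg] }
  have hnorm : Normal ℚ Qb := inferInstance
  let L : (F ≃ₐ[ℚ] F) → Gal(Qb/ℚ) := fun φ => φ.liftNormal Qb
  have hL : ∀ φ (x : F), L φ (x : Qb) = (φ x : F) := fun φ x => φ.liftNormal_commutes Qb x
  have hLinv : ∀ φ (x : F), (L φ)⁻¹ (x : Qb) = (φ.symm x : F) := by
    intro φ x
    have h1 := hL φ (φ.symm x)
    rw [φ.apply_symm_apply] at h1
    rw [← h1]
    exact (L φ).symm_apply_apply _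
  have hstab : ∀ φ, ∀ v ∈ V, τ (L φ) v ∈ V := by
    intro φ v hv g hg
    have h1 : (L φ)⁻¹ * g * L φ ∈ F.fixingSubgroup := by
      rw [IntermediateField.mem_fixingSubgroup_iff]
      intro x hx
      rw [AlgEquiv.mul_apply, AlgEquiv.mul_apply]
      have h2 := hL φ ⟨x, hx⟩
      change L φ x = _ at h2
      rw [h2, (IntermediateField.mem_fixingSubgroup_iff _ _).1 hg _ (φ ⟨x, hx⟩).2, hLinv, φ.symm_apply_apply]
    have h2 := hv _ h1
    have h3 : τ g (τ (L φ) v) = τ (L φ) (τ ((L φ)⁻¹ * g * L φ) v) := by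
      rw [← Module.End.mul_apply, ← Module.End.mul_apply, ← map_mul, ← map_mul]
      congr 2
      group
    rw [h3, h2]
  let b : Representation (ZMod p) (F ≃ₐ[ℚ] F) V :=
    { toFun := fun φ => (τ (L φ)).restrict (hstab φ)
      map_one' := by
        ext v
        have h1 : L 1 ∈ F.fixingSubgroup := by
          rw [IntermediateField.mem_fixingSubgroup_iff]
          intro x hx
          exact hL 1 ⟨x, hx⟩
        exact v.2 _ h1
      map_mul' := fun φ ψ => by
        ext v
        have h1 : (L (φ * ψ))⁻¹ * (L φ * L ψ) ∈ F.fixingSubgroup := by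
          rw [IntermediateField.mem_fixingSubgroup_iff]
          intro x hx
          rw [AlgEquiv.mul_apply, AlgEquiv.mul_apply]
          have h2 := hL ψ ⟨x, hx⟩
          change L ψ x = _ at h2
          rw [h2, hL, hLinv]
          have h3 : (φ * ψ).symm (φ (ψ ⟨x, hx⟩)) = ⟨x, hx⟩ := (φ * ψ).symm_apply_apply ⟨x, hx⟩
          rw [h3]
        have h2 := v.2 _ h1
        show τ (L (φ * ψ)) (v : S) = τ (L φ) (τ (L ψ) (v : S))
        conv_lhs => rw [← h2]
        rw [← Module.End.mul_apply, ← Module.End.mul_apply, ← map_mul, ← map_mul]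
        congr 2
        group }
  have hb : ∀ φ (v : V), ((b φ v : V) : S) = τ (L φ) (v : S) := fun φ v => rfl
  refine ⟨V, inferInstance, inferInstance, inferInstance, ⟨⟨⟨v₀, hfix₀⟩, 0, fun h0 => hv₀
    (congrArg Subtype.val h0)⟩⟩, b, ?_⟩
  intro σ hσ v hv
  by_contra hv0
  apply hσ
  have hv1 : (v : S) ≠ 0 := fun h0 => hv0 (Subtype.ext h0)
  have hF := hall v hv1 v.2
  have h1 : L σ ∈ stab τ (v : S) := by
    show τ (L σ) (v : S) = v
    rw [← hb, hv]
  ext x
  have h2 : (x : Qb) ∈ fixedField (stab τ (v : S)) := by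
    rw [← hF]
    exact x.2
  have h3 := (mem_fixedField_iff _ _).1 h2 _ h1
  rw [hL] at h3
  exact h3

theorem tight_free {p : ℕ} [Fact p.Prime] {F : IntermediateField ℚ Qb} (h : IsTight p F) :
    ActsFreely p (AutGroup F) := tight_free' h

/-- The vectors fixed by a normal subgroup. -/
theorem fixed_all {p : ℕ} [Fact p.Prime] {𝔾 : Type} [Group 𝔾] {H : Subgroup 𝔾} (hH : H.Normal)
    {S : Type} [AddCommGroup S] [Module (ZMod p) S] {τ : Representation (ZMod p) 𝔾 S}
    (hs : IsSimple τ) {v : S} (hv : v ≠ 0) (hfix : ∀ g ∈ H, τ g v = v) :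
    ∀ g ∈ H, ∀ x, τ g x = x := by
  let V : Submodule (ZMod p) S :=
    { carrier := {v | ∀ g ∈ H, τ g v = v}
      add_mem' := fun {a b} ha hb g hg => by rw [map_add, ha g hg, hb g hg]
      zero_mem' := fun g _ => map_zero _
      smul_mem' := fun c a ha g hg => by rw [map_smul, ha g hg] }
  have hV : Stable τ V := by
    intro g x hx h hh
    have h1 : g⁻¹ * h * g ∈ H := by
      have := hH.conj_mem h hh g⁻¹
      rwa [inv_inv] at this
    have h2 : τ h (τ g x) = τ g (τ (g⁻¹ * h * g) x) := by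
      rw [← Module.End.mul_apply, ← Module.End.mul_apply, ← map_mul, ← map_mul]
      congr 2
      group
    rw [h2, hx _ h1]
  rcases hs.2 V hV with h | h
  · exfalso
    have h1 : v ∈ V := hfix
    rw [h, Submodule.mem_bot] at h1
    exact hv h1
  · intro g hg x
    have h1 : x ∈ V := by rw [h]; trivial
    exact h1 g hg

/-- **Tight fields do not come from `p`-extensions.** -/
theorem tight_p {p : ℕ} [Fact p.Prime] {F : IntermediateField ℚ Qb} (h : IsTight p F)
    (L M : IntermediateField ℚ Qb) (hM : FiniteDimensional ℚ M) (hL : IsGalois ℚ L)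
    (hMg : IsGalois ℚ M) (hLM : L ≤ M) (hFM : F ≤ M) {k : ℕ}
    (hk : finrank ℚ M = p ^ k * finrank ℚ L) : F ≤ L := by
  obtain ⟨S, _, _, hSf, τ, hs, -, ⟨v, hv, hfix⟩, hall⟩ := h.elim
  have hMn : M.fixingSubgroup.Normal := (InfiniteGalois.normal_iff_isGalois M).2 hMg
  have hLn : L.fixingSubgroup.Normal := (InfiniteGalois.normal_iff_isGalois L).2 hL
  have hle : M.fixingSubgroup ≤ L.fixingSubgroup := fixingSubgroup_le hLM
  have hM1 : ∀ g ∈ M.fixingSubgroup, ∀ x, τ g x = x :=
    fixed_all hMn hs hv fun g hg => hfix g (fixingSubgroup_le hFM hg)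
  have hnt : Nontrivial S := hs.1
  -- the `p`-group
  have hnn : (M.fixingSubgroup.subgroupOf L.fixingSubgroup).Normal := inferInstance
  have hcard : Nat.card (L.fixingSubgroup ⧸ M.fixingSubgroup.subgroupOf L.fixingSubgroup) = p ^ k := by
    have h1 := relIndex_mul_index hle
    rw [← finrank_eq_fixingSubgroup_index, ← finrank_eq_fixingSubgroup_index, hk] at h1
    have h2 : 0 < finrank ℚ L := by
      rcases Nat.eq_zero_or_pos (finrank ℚ L) with h0 | h0
      · rw [h0, mul_zero] at hk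
        have : 0 < finrank ℚ M := finrank_pos
        omega
      · exact h0
    exact Nat.eq_of_mul_eq_mul_right h2 h1
  have hP : IsPGroup p (L.fixingSubgroup ⧸ M.fixingSubgroup.subgroupOf L.fixingSubgroup) :=
    IsPGroup.of_card hcard
  let ρ : Representation (ZMod p) (L.fixingSubgroup ⧸ M.fixingSubgroup.subgroupOf L.fixingSubgroup)
      S := QuotientGroup.lift _ (τ.comp L.fixingSubgroup.subtype) (fun g hg => by
    apply LinearMap.ext
    intro x
    exact hM1 _ hg x)
  obtain ⟨w, hw, hwf⟩ := exists_fixed hP ρ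
  have hL1 : ∀ g ∈ L.fixingSubgroup, ∀ x, τ g x = x :=
    fixed_all hLn hs hw fun g hg => hwf (QuotientGroup.mk ⟨g, hg⟩)
  rw [hall v hv hfix]
  exact fixed_le τ L hL1 v

end Pool.Agent.V7H44.MF
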